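import Pool.Agent.Helper5.RS.ASS
import Pool.Agent.Helper11.RL.Final2

/-!
# MP_b6b996_nt: the random model, both bounds on every short arc

Let `ε p` (`p` prime) be independent random signs, `1` or `-1` with probability `1/2`, and
`f(n) = μ(n)^2 ∏_{p ∣ n} ε p` (the random model of the Moebius function, for which all signs are `-1`). Almost
surely, for every `κ < 1`, the maximum of `|∑_{n ≤ N} f(n) e(n x)|` over every interval of length `N^(-κ)` lies
between `c √(N log N)`, `c = c(κ) > 0`, and `√N (log N)^(1/2 + δ)` for all large `N`.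
-/

set_option autoImplicit false

namespace Pool.Agent.Helper11.EA3.Keep.RandomArcs

open Finset MeasureTheory ProbabilityTheory

/-- The function `μ(n)^2 ∏_{p ∣ n} s(p)` attached to the signs `s(p)` of the primes. -/
noncomputable def signed (s : Nat.Primes → ℝ) (n : ℕ) : ℝ :=
  if Squarefree n then ∏ p ∈ n.primeFactors.attach, s ⟨p, Nat.prime_of_mem_primeFactors p.2⟩ else 0

/-- The exponential sum `∑ f(n) e^{2 π i n x}` over `1 ≤ n ≤ N`. -/
noncomputable def F (f : ℕ → ℝ) (N : ℕ) (x : ℝ) : ℂ :=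
  ∑ n ∈ Icc 1 N, (f n : ℂ) * Complex.exp (2 * Real.pi * Complex.I * n * x)

/-- The maximum of `|F_N|` over the interval `[a, a + N^(-κ)]`. -/
noncomputable def arcMax (f : ℕ → ℝ) (N : ℕ) (κ a : ℝ) : ℝ :=
  sSup ((fun x => ‖F f N x‖) '' Set.Icc a (a + (N : ℝ) ^ (-κ)))

theorem result (κ : ℝ) (_ : κ < 1) : ∃ c : ℝ, 0 < c ∧ ∀ {Ω : Type*} [MeasurableSpace Ω] (P : Measure Ω) [IsProbabilityMeasure P]
    (ε : Nat.Primes → Ω → ℝ) (_ : ∀ p, Measurable (ε p)) (_ : iIndepFun ε P)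
    (_ : ∀ p, P {ω | ε p ω = 1} = 1 / 2) (_ : ∀ p, P {ω | ε p ω = -1} = 1 / 2) (δ : ℝ) (_ : 0 < δ),
    ∀ᵐ ω ∂P, ∃ N₀ : ℕ, ∀ N : ℕ, N₀ ≤ N → ∀ a : ℝ,
      c * Real.sqrt (N * Real.log N) ≤ arcMax (signed fun p => ε p ω) N κ a ∧
      arcMax (signed fun p => ε p ω) N κ a ≤ Real.sqrt N * Real.log N ^ (1 / 2 + δ) := by
  obtain ⟨c, hc, hlow⟩ := Pool.Agent.Helper11.RL.almost_sure_arc κ ‹_›
  refine ⟨c, hc, ?_⟩
  intro Ω _ P _ ε hm hi h1 h2 δ hδ
  filter_upwards [Pool.Agent.Helper5.RS.almost_sure2 P ε hm hi h2 h1 (δ / 2) (by positivity),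
    hlow P ε hm hi h2 h1] with ω hω hω2
  have e2 : ∀ n : ℕ, signed (fun p => ε p ω) n =
      Pool.Agent.Helper5.RM.rs (Pool.Agent.Helper5.RM.ext ε) ω n := by
    intro n
    unfold signed Pool.Agent.Helper5.RM.rs
    split_ifs with hn
    · rw [← Finset.prod_attach n.primeFactors (fun p => Pool.Agent.Helper5.RM.ext ε p ω)]
      refine Finset.prod_congr rfl fun p _ => ?_
      unfold Pool.Agent.Helper5.RM.ext
      rw [dif_pos (Nat.prime_of_mem_primeFactors p.2)]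
    · rfl
  have e1 : ∀ (N : ℕ) (x : ℝ), F (signed fun p => ε p ω) N x =
      ∑ n ∈ Icc 1 N, (Pool.Agent.Helper5.RM.rs (Pool.Agent.Helper5.RM.ext ε) ω n : ℂ) *
        Pool.Agent.Helper5.RM.e (n * x) := by
    intro N x
    unfold F Pool.Agent.Helper5.RM.e
    refine Finset.sum_congr rfl fun n _ => ?_
    rw [e2]
    congr 2
    push_cast
    ring
  obtain ⟨C, hC⟩ := hω
  obtain ⟨N1, hN1⟩ := hω2
  obtain ⟨N2, hN2⟩ : ∃ N2 : ℕ, ∀ N : ℕ, N2 ≤ N → C ≤ Real.log N ^ (δ / 2) := by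
    have h3 : Filter.Tendsto (fun k : ℕ => Real.log k ^ (δ / 2)) Filter.atTop Filter.atTop :=
      (tendsto_rpow_atTop (by positivity)).comp (Real.tendsto_log_atTop.comp tendsto_natCast_atTop_atTop)
    exact Filter.eventually_atTop.1 (h3.eventually_ge_atTop C)
  refine ⟨N1 + N2 + 2, fun N hN a => ?_⟩
  have hlog : 0 < Real.log N := Real.log_pos (by exact_mod_cast (by omega : 1 < N))
  have hbd : ∀ x : ℝ, ‖F (signed fun p => ε p ω) N x‖ ≤ Real.sqrt N * Real.log N ^ (1 / 2 + δ) := by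
    intro x
    rw [e1]
    refine (hC N (by omega) x).trans ?_
    have h3 := hN2 N (by omega)
    have h4 : Real.log N ^ (1 / 2 + δ) = Real.log N ^ (δ / 2) * Real.log N ^ (1 / 2 + δ / 2) := by
      rw [← Real.rpow_add hlog]; congr 1; ring
    rw [h4]
    have h5 : 0 ≤ Real.sqrt N * Real.log N ^ (1 / 2 + δ / 2) := by positivity
    calc C * Real.sqrt N * Real.log N ^ (1 / 2 + δ / 2) = C * (Real.sqrt N * Real.log N ^ (1 / 2 + δ / 2)) := by ring
      _ ≤ Real.log N ^ (δ / 2) * (Real.sqrt N * Real.log N ^ (1 / 2 + δ / 2)) := mul_le_mul_of_nonneg_right h3 h5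
      _ = _ := by ring
  have hne : ((fun x => ‖F (signed fun p => ε p ω) N x‖) '' Set.Icc a (a + (N : ℝ) ^ (-κ))).Nonempty :=
    Set.Nonempty.image _ (Set.nonempty_Icc.2 (le_add_of_nonneg_right (by positivity)))
  have hbdd : BddAbove ((fun x => ‖F (signed fun p => ε p ω) N x‖) '' Set.Icc a (a + (N : ℝ) ^ (-κ))) :=
    ⟨_, by rintro _ ⟨x, _, rfl⟩; exact hbd x⟩
  constructor
  · obtain ⟨x, hx1, hx2, hx3⟩ := hN1 N (by omega) a
    rw [← e1] at hx3
    exact hx3.trans (le_csSup hbdd ⟨x, ⟨hx1, hx2⟩, rfl⟩)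
  · exact csSup_le hne (by rintro _ ⟨x, _, rfl⟩; exact hbd x)

end Pool.Agent.Helper11.EA3.Keep.RandomArcs
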